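import Pool.Agent.Y857.KE.Main
import Pool.Agent.Y857.KE.Tree

/-!
# Knotted spanning edges force evaders

Let `K` be a triangulated 3-ball (or any finite simplicial complex with connected 1-skeleton) and
let `e = {u, w}` be a spanning edge of `K`. Suppose that the knot group of `e`, the fundamental
group of the complement of `e`, is not generated by `m` elements. Then

* in every reduction of `K` to the empty complex by successive deletions of vertices, the numbers
  `max (0, k - 1)`, `k` the number of connected components of the link of the deleted vertex, have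
  sum at least `m` (`Dis`);
* the recursion `c(point) = 0`, `c({∅}) = 1`, `c(K) ≤ c(K - v) + c(lk v)`, whose value `0` means
  non-evasive, never gives a value less than `m` for `K` (`Ev`);
* every decision tree for the membership in `K` has at least `2 m` evaders (`evd`).

For `m = 1`: if `e` is knotted, then `K` cannot be reduced to a vertex by deletions of vertices
with connected links. In particular `K` is evasive, which is the answer to the question.
-/

set_option autoImplicit false

namespace Pool.Agent.Results.MP_242373_co.EvaderBound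

open Pool.Agent.H933R3 Pool.Agent.Y857.KE

/-- Lower bounds for the evasiveness of a triangulated 3-ball (or of any complex with connected
1-skeleton) by the number of generators of the knot group of a spanning edge. -/
theorem result (n : ℕ) (K : Finset (Finset (Fin n))) (u w : Fin n) (hK : IsCx K)
    (hB : IsBall 3 K ∨ Conn K) (hs : IsSpanningEdge K u w) :
    (∀ (m : ℕ) (y : edgeExterior K u w),
      (¬ ∃ S : Finset (FundamentalGroup (edgeExterior K u w) y), S.card ≤ m ∧
        Subgroup.closure (S : Set (FundamentalGroup (edgeExterior K u w) y)) = ⊤) →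
      (∀ c, Dis c K → m ≤ c) ∧ (∀ c, Ev c K → m ≤ c) ∧
      ∀ t : DT (Fin n), DecOn t Finset.univ K → 2 * m ≤ (evd t Finset.univ).card) ∧
    (Ev 0 K ↔ NonEvasive K) ∧
    (IsKnottedEdge K u w → ¬ Dis 0 K ∧ ¬ NonEvasive K ∧
      ∀ t : DT (Fin n), DecOn t Finset.univ K → 2 ≤ (evd t Finset.univ).card) := by
  classical
  have hc : Conn K := by
    rcases hB with h | h
    · exact conn_of_ball hK h
    · exact h
  have h1 : ∀ (m : ℕ) (y : edgeExterior K u w),
      (¬ GenBy m (FundamentalGroup (edgeExterior K u w) y)) →
      (∀ c, Dis c K → m ≤ c) ∧ (∀ c, Ev c K → m ≤ c) ∧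
      ∀ t : DT (Fin n), DecOn t Finset.univ K → 2 * m ≤ (evd t Finset.univ).card := by
    intro m y hm
    have hd : ∀ c, Dis c K → m ≤ c := by
      intro c hD
      by_contra hlt
      obtain ⟨S, hS1, hS2⟩ := main_rank hK hc hD hs y
      exact hm ⟨S, by omega, hS2⟩
    refine ⟨hd, fun c hE => hd c (dis_of_ev hE hK).1, fun t ht => ?_⟩
    have := hd _ ((dt_main t Finset.univ K ht (Or.inl hK) (fun s _ => Finset.subset_univ s)).2 hK).1
    omega
  refine ⟨h1, ev_zero_iff, ?_⟩
  rintro ⟨y, hy⟩
  have h2 : ¬ GenBy 1 (FundamentalGroup (edgeExterior K u w) y) := by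
    rintro ⟨S, hS1, hS2⟩
    apply hy
    obtain ⟨g, hg⟩ : ∃ g, (S : Set (FundamentalGroup (edgeExterior K u w) y)) ⊆ {g} := by
      rcases S.eq_empty_or_nonempty with h | ⟨g, hg⟩
      · exact ⟨1, by simp [h]⟩
      · refine ⟨g, fun x hx => ?_⟩
        exact Finset.card_le_one.1 hS1 x hx g hg
    refine ⟨g, fun x => ?_⟩
    have hx : x ∈ Subgroup.closure (S : Set (FundamentalGroup (edgeExterior K u w) y)) := by
      rw [hS2]; trivial
    have := Subgroup.closure_mono hg hx
    rwa [← Subgroup.zpowers_eq_closure] at this
  obtain ⟨hd, he, ht⟩ := h1 1 y h2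
  refine ⟨fun h => absurd (hd 0 h) (by omega), fun h => ?_, fun t h => by simpa using ht t h⟩
  exact absurd (he 0 (ev_of_nonEvasive h)) (by omega)

end Pool.Agent.Results.MP_242373_co.EvaderBound
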